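import Pool.Agent.H97.EM.Low.Def
import Pool.Agent.H97.EM.Find

/-! Relative computability: basic facts. -/

namespace Pool.Agent.H97.EM

private theorem bex_comp {α : Type*} [Primcodable α] {P : α → ℕ → Bool} (hP : Computable₂ P)
    {n : α → ℕ} (hn : Computable n) :
    Computable fun a => (List.range (n a)).any fun k => P a k := by
  have h1 : Computable₂ fun a k => !(P a k) := (Primrec.not.to_comp.comp hP : Computable fun p : α × ℕ => !(P p.1 p.2))
  have h2 := Primrec.not.to_comp.comp (ball_comp h1 hn)
  refine h2.of_eq fun a => ?_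
  rw [List.all_eq_not_any_not, Bool.not_not]
  simp

/-- the first `m` entries -/
private def pre (τ : List Bool) (m : ℕ) : List Bool := (List.range m).map fun i => τ.getD i false

private theorem pre_comp : Primrec₂ pre := by
  refine Primrec.list_map (Primrec.list_range.comp Primrec.snd) ?_
  exact (Primrec.list_getD false).comp (Primrec.fst.comp Primrec.fst) Primrec.snd

private theorem pre_eq (X : ℕ → Bool) {m M : ℕ} (h : m ≤ M) :
    pre ((List.range M).map X) m = (List.range m).map X := by
  unfold pre
  refine List.map_congr_left fun i hi => ?_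
  have hi' : i < m := List.mem_range.1 hi
  have : i < ((List.range M).map X).length := by
    rw [List.length_map, List.length_range]
    omega
  rw [List.getD_eq_getElem _ _ this]
  simp

/-- some initial segment is accepted -/
private def acc {α : Type*} (R : α → List Bool → Bool) (a : α) (τ : List Bool) : Bool :=
  (List.range (τ.length + 1)).any fun m => R a (pre τ m)

private theorem acc_comp {α : Type*} [Primcodable α] {R : α → List Bool → Bool} (hR : Computable₂ R) :
    Computable₂ (acc R) := by
  have h : Computable fun p : α × List Bool => (List.range (p.2.length + 1)).any fun m => R p.1 (pre p.2 m) := by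
    refine bex_comp (P := fun (p : α × List Bool) m => R p.1 (pre p.2 m)) (n := fun p => p.2.length + 1) ?_ ?_
    · exact hR.comp (Computable.fst.comp Computable.fst)
        (pre_comp.to_comp.comp (Computable.snd.comp Computable.fst) Computable.snd)
    · exact Computable.succ.comp (Computable.list_length.comp Computable.snd)
  exact h

private theorem acc_iff {α : Type*} (R : α → List Bool → Bool) (a : α) (X : ℕ → Bool) (M : ℕ) :
    acc R a ((List.range M).map X) = true ↔ ∃ m ≤ M, R a ((List.range m).map X) = true := by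
  unfold acc
  rw [List.any_eq_true]
  constructor
  · rintro ⟨m, hm, h⟩
    rw [List.mem_range, List.length_map, List.length_range] at hm
    rw [pre_eq X (by omega)] at h
    exact ⟨m, by omega, h⟩
  · rintro ⟨m, hm, h⟩
    refine ⟨m, ?_, ?_⟩
    · rw [List.mem_range, List.length_map, List.length_range]
      omega
    · rw [pre_eq X hm]
      exact h

theorem compIn_of_comp {α : Type*} [Primcodable α] {P : α → Prop} (h : ComputablePred P)
    (X : ℕ → Bool) : CompIn X P := by
  obtain ⟨f, hf, hfP⟩ := comp_decide h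
  refine ⟨⟨fun a _ => f a, hf.comp Computable.fst, fun a => ?_⟩,
    ⟨fun a _ => !(f a), Primrec.not.to_comp.comp (hf.comp Computable.fst), fun a => ?_⟩⟩
  · simp [hfP]
  · simp [← hfP]

/-- The limit of the stages of an enumeration. -/
theorem low_empty : Low fun _ => false := by
  rintro P ⟨R, hR, h⟩
  refine ⟨fun a s => acc R a ((List.range s).map fun _ => false), ?_, fun a => ?_⟩
  · refine (acc_comp hR).comp Computable.fst ?_
    have h1 : Primrec fun s : ℕ => (List.range s).map fun _ => false :=
      Primrec.list_map Primrec.list_range (Primrec.const false).to₂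
    exact h1.to_comp.comp Computable.snd
  · by_cases hP : P a
    · obtain ⟨m, hm⟩ := (h a).1 hP
      refine ⟨m, fun s hs => ?_⟩
      rw [acc_iff]
      exact ⟨fun _ => hP, fun _ => ⟨m, hs, hm⟩⟩
    · refine ⟨0, fun s _ => ?_⟩
      rw [acc_iff]
      exact ⟨fun ⟨m, _, hm⟩ => (h a).2 ⟨m, hm⟩, fun h' => absurd h' hP⟩

theorem CeIn.comp {α β : Type*} [Primcodable α] [Primcodable β] {X : ℕ → Bool} {P : β → Prop}
    (h : CeIn X P) {f : α → β} (hf : Computable f) : CeIn X fun a => P (f a) := by
  obtain ⟨R, hR, h⟩ := h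
  exact ⟨fun a τ => R (f a) τ, hR.comp (hf.comp Computable.fst) Computable.snd, fun a => h (f a)⟩

/-- Lowness for predicates on denumerable types. -/
theorem Low.limDec {α : Type*} [Denumerable α] {X : ℕ → Bool} (hX : Low X) {P : α → Prop}
    (h : CeIn X P) : LimDec P := by
  obtain ⟨g, hg, h1⟩ := hX (fun n => P (Denumerable.ofNat α n)) (h.comp (Computable.ofNat α))
  refine ⟨fun a s => g (Encodable.encode a) s,
    hg.comp (Computable.encode.comp Computable.fst) Computable.snd, fun a => ?_⟩
  obtain ⟨s₀, hs⟩ := h1 (Encodable.encode a)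
  refine ⟨s₀, fun s h2 => ?_⟩
  refine (hs s h2).trans ?_
  show P (Denumerable.ofNat α (Encodable.encode a)) ↔ P a
  rw [Denumerable.ofNat_encode]

/-- Existential quantification over `ℕ`: with the test
`fun a τ => ∃ n < τ.length + 1, ∃ m < τ.length + 1, R (a, n) (τ.take m)`. -/
theorem CeIn.exists {α : Type*} [Primcodable α] {X : ℕ → Bool} {P : α × ℕ → Prop}
    (h : CeIn X P) : CeIn X fun a => ∃ n, P (a, n) := by
  obtain ⟨R, hR, h⟩ := h
  refine ⟨fun a τ => (List.range (τ.length + 1)).any fun n => acc R (a, n) τ, ?_, fun a => ?_⟩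
  · have h1 : Computable fun p : α × List Bool =>
        (List.range (p.2.length + 1)).any fun n => acc R (p.1, n) p.2 := by
      refine bex_comp (P := fun (p : α × List Bool) n => acc R (p.1, n) p.2) (n := fun p => p.2.length + 1) ?_ ?_
      · exact (acc_comp hR).comp (Computable.pair (Computable.fst.comp Computable.fst) Computable.snd)
          (Computable.snd.comp Computable.fst)
      · exact Computable.succ.comp (Computable.list_length.comp Computable.snd)
    exact h1
  · constructor
    · rintro ⟨n, hn⟩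
      obtain ⟨m, hm⟩ := (h (a, n)).1 hn
      refine ⟨max n m, ?_⟩
      rw [List.any_eq_true]
      refine ⟨n, ?_, ?_⟩
      · rw [List.mem_range, List.length_map, List.length_range]
        have := le_max_left n m
        omega
      · rw [acc_iff]
        exact ⟨m, le_max_right n m, hm⟩
    · rintro ⟨M, hM⟩
      rw [List.any_eq_true] at hM
      obtain ⟨n, -, hn⟩ := hM
      rw [acc_iff] at hn
      obtain ⟨m, -, hm⟩ := hn
      exact ⟨n, (h (a, n)).2 ⟨m, hm⟩⟩

theorem CeIn.and {α : Type*} [Primcodable α] {X : ℕ → Bool} {P Q : α → Prop}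
    (h : CeIn X P) (h' : CeIn X Q) : CeIn X fun a => P a ∧ Q a := by
  obtain ⟨R, hR, h⟩ := h
  obtain ⟨S, hS, h'⟩ := h'
  refine ⟨fun a τ => acc R a τ && acc S a τ, Primrec.and.to_comp.comp (acc_comp hR) (acc_comp hS), fun a => ?_⟩
  constructor
  · rintro ⟨h1, h2⟩
    obtain ⟨m, hm⟩ := (h a).1 h1
    obtain ⟨k, hk⟩ := (h' a).1 h2
    refine ⟨max m k, ?_⟩
    rw [Bool.and_eq_true, acc_iff, acc_iff]
    exact ⟨⟨m, le_max_left m k, hm⟩, ⟨k, le_max_right m k, hk⟩⟩
  · rintro ⟨M, hM⟩
    rw [Bool.and_eq_true, acc_iff, acc_iff] at hM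
    obtain ⟨⟨m, -, hm⟩, ⟨k, -, hk⟩⟩ := hM
    exact ⟨(h a).2 ⟨m, hm⟩, (h' a).2 ⟨k, hk⟩⟩

theorem CeIn.or {α : Type*} [Primcodable α] {X : ℕ → Bool} {P Q : α → Prop}
    (h : CeIn X P) (h' : CeIn X Q) : CeIn X fun a => P a ∨ Q a := by
  obtain ⟨R, hR, h⟩ := h
  obtain ⟨S, hS, h'⟩ := h'
  refine ⟨fun a τ => R a τ || S a τ, Primrec.or.to_comp.comp hR hS, fun a => ?_⟩
  show P a ∨ Q a ↔ ∃ m, (R a ((List.range m).map X) || S a ((List.range m).map X)) = true
  rw [h a, h' a]
  constructor
  · rintro (⟨m, hm⟩ | ⟨m, hm⟩)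
    · exact ⟨m, by rw [hm]; rfl⟩
    · exact ⟨m, by rw [hm, Bool.or_true]⟩
  · rintro ⟨m, hm⟩
    rw [Bool.or_eq_true] at hm
    exact hm.imp (fun h => ⟨m, h⟩) fun h => ⟨m, h⟩

end Pool.Agent.H97.EM
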