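import Pool.Agent.H97.EM.Defs

/-! Relative computability and low sets. -/

namespace Pool.Agent.H97.EM

/-- `P` is computably enumerable in `X`: there is a computable test `R` such that `P a` iff `R`
accepts `a` together with some finite initial segment of `X`. -/
def CeIn {α : Type*} [Primcodable α] (X : ℕ → Bool) (P : α → Prop) : Prop :=
  ∃ R : α → List Bool → Bool, Computable₂ R ∧
    ∀ a, P a ↔ ∃ m, R a ((List.range m).map X) = true

/-- `P` is computable in `X`. -/
def CompIn {α : Type*} [Primcodable α] (X : ℕ → Bool) (P : α → Prop) : Prop :=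
  CeIn X P ∧ CeIn X fun a => ¬ P a

/-- `P` is limit computable. -/
def LimDec {α : Type*} [Primcodable α] (P : α → Prop) : Prop :=
  ∃ g : α → ℕ → Bool, Computable₂ g ∧ ∀ a, ∃ s₀, ∀ s, s₀ ≤ s → (g a s = true ↔ P a)

/-- `X` is low: every set which is computably enumerable in `X` is limit computable, that is
`X' ≤ 0'`. -/
def Low (X : ℕ → Bool) : Prop := ∀ P : ℕ → Prop, CeIn X P → LimDec P

/-- `M` has an isomorphic copy with universe `ℕ` whose elementary diagram is computable
in `X`. -/
def DecModelIn (X : ℕ → Bool) (M : Str) : Prop :=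
  ∃ N, Iso M N ∧ CompIn X fun p : Fml × List ℕ => Holds N p.1 p.2

end Pool.Agent.H97.EM
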