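import Pool.Agent.H97.EM.Low.Nam
import Pool.Agent.H97.EM.Cov1
import Pool.Agent.H97.EM.Inj.Main

/-! The jump theorem. -/

namespace Pool.Agent.H97.EM

theorem jump_low {T : Set Fml} (hc : IsComplete T) (hf : FinMany T) (ht : CompTypes T)
    {M : Str} (hM : IsModel M T) {X : ℕ → Bool} (hX : Low X) (h : DecModelIn X M) :
    DecModel M := by
  obtain ⟨N, hi, hN⟩ := h
  have hNT : IsModel N T := isModel_iso hi hM
  obtain ⟨B, bb, hbb, -, hBc, hat, hcov⟩ := exists_cov hc hf ht hNT
  obtain ⟨g, hg, hg'⟩ := exists_names (hX.limDec (ce_not_te hN hBc))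
  obtain ⟨N', hi', hN'⟩ := main_inj (a := id) hbb hBc hat hcov Function.surjective_id hg
    (fun n hn => by
      rw [List.map_id]
      refine hg' n ?_
      obtain ⟨b, Y, h1, h2, h3⟩ := hcov (List.range n)
      refine ⟨Y, h3.right h1 ?_⟩
      intro h0
      have := congrArg List.length h0
      simp at this
      omega)
  exact decModel_of_iso (iso_trans hi hi') hN'

theorem jump {T : Set Fml} (hc : IsComplete T) (hf : FinMany T) (ht : CompTypes T)
    {M : Str} (hM : IsModel M T) : DecModel M ↔ ∃ X : ℕ → Bool, Low X ∧ DecModelIn X M := by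
  constructor
  · rintro ⟨N, hi, hN⟩
    exact ⟨fun _ => false, low_empty, N, hi, compIn_of_comp hN _⟩
  · rintro ⟨X, hX, h⟩
    exact jump_low hc hf ht hM hX h

end Pool.Agent.H97.EM
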