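import Pool.Agent.H97.EM.Low.Bas
import Pool.Agent.H97.EM.TE
import Pool.Agent.H97.EM.Prim

/-! Names of types: computability in the limit. -/

namespace Pool.Agent.H97.EM

/-- Padding: `Ev N φ a` is `Holds N φ (a ++ replicate (encode φ + 1) head)`. -/
theorem ev_iff_holds_pad {N : Str} {a : List ℕ} (ha : a ≠ []) (φ : Fml) :
    Ev N φ a ↔ Holds N φ (a ++ List.replicate (Encodable.encode φ + 1) (a.headD 0)) := by
  unfold Ev Holds
  have h1 : ∀ i ∈ φ.fv, i < (a ++ List.replicate (Encodable.encode φ + 1) (a.headD 0)).length := by
    intro i hi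
    have := fv_le φ i hi
    rw [List.length_append, List.length_replicate]
    omega
  rw [sat_congr N φ (ext a)
    (fun i => (a ++ List.replicate (Encodable.encode φ + 1) (a.headD 0)).getD i 0) ?_]
  · exact ⟨fun h => ⟨h1, h⟩, fun h => h.2⟩
  · intro i hi
    have h2 := fv_le φ i hi
    unfold ext
    show a.getD i (a.headD 0) =
      (a ++ List.replicate (Encodable.encode φ + 1) (a.headD 0)).getD i 0
    rcases Nat.lt_or_ge i a.length with h3 | h3
    · rw [List.getD_append _ _ _ _ h3, List.getD_eq_getElem _ _ h3, List.getD_eq_getElem _ _ h3]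
    · rw [List.getD_eq_default _ _ h3, List.getD_append_right _ _ _ _ h3,
        List.getD_eq_getElem _ _ (by rw [List.length_replicate]; omega), List.getElem_replicate]

/-- Inequality of types is enumerable: `q.1 = 0`, or the lengths are different, or there is a
formula (number) which separates the tuples. -/
theorem ce_not_te {X : ℕ → Bool} {N B : Str}
    (hN : CompIn X fun p : Fml × List ℕ => Holds N p.1 p.2) (hB : CompStr B) :
    CeIn X fun q : ℕ × List ℕ => ¬ TE N (List.range q.1) B q.2 := by
  have hφ : Computable fun x : (ℕ × List ℕ) × ℕ => Denumerable.ofNat Fml x.2 :=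
    (Computable.ofNat Fml).comp Computable.snd
  have hrep : Primrec₂ fun (k h : ℕ) => List.replicate k h := by
    have h1 : Primrec fun p : ℕ × ℕ => (List.range p.1).map fun _ => p.2 :=
      Primrec.list_map (Primrec.list_range.comp Primrec.fst)
        ((Primrec.snd.comp Primrec.fst).to₂)
    refine Primrec.of_eq h1 ?_
    rintro ⟨k, h⟩
    refine List.ext_getElem (by simp) fun i h1 h2 => ?_
    simp
  have hhd : Primrec fun a : List ℕ => a.headD 0 :=
    (Primrec.option_getD.comp Primrec.list_head? (Primrec.const 0)).of_eq fun a => by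
      cases a <;> rfl
  have hr : Computable fun x : (ℕ × List ℕ) × ℕ => List.range x.1.1 :=
    Primrec.list_range.to_comp.comp (Computable.fst.comp Computable.fst)
  have hpad : Computable fun x : (ℕ × List ℕ) × ℕ => List.range x.1.1 ++
      List.replicate (Encodable.encode (Denumerable.ofNat Fml x.2) + 1)
        ((List.range x.1.1).headD 0) := by
    refine Computable.list_append.comp hr (hrep.to_comp.comp (Computable.succ.comp
      (Computable.encode.comp hφ)) (hhd.to_comp.comp hr))
  have hmap : Computable fun x : (ℕ × List ℕ) × ℕ => (Denumerable.ofNat Fml x.2,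
      List.range x.1.1 ++ List.replicate (Encodable.encode (Denumerable.ofNat Fml x.2) + 1)
        ((List.range x.1.1).headD 0)) := hφ.pair hpad
  have hmap2 : Computable fun x : (ℕ × List ℕ) × ℕ => (Denumerable.ofNat Fml x.2, x.1.2) :=
    hφ.pair (Computable.snd.comp Computable.fst)
  obtain ⟨f, hf, hf'⟩ := comp_decide hB
  have e1 : ComputablePred fun x : (ℕ × List ℕ) × ℕ => Ev B (Denumerable.ofNat Fml x.2) x.1.2 :=
    compPred_of (f := fun x : (ℕ × List ℕ) × ℕ => f (Denumerable.ofNat Fml x.2, x.1.2))
      (hf.comp hmap2) fun x => hf' (Denumerable.ofNat Fml x.2, x.1.2)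
  have e2 : ComputablePred fun x : (ℕ × List ℕ) × ℕ => ¬ Ev B (Denumerable.ofNat Fml x.2) x.1.2 :=
    compPred_of (f := fun x : (ℕ × List ℕ) × ℕ => !f (Denumerable.ofNat Fml x.2, x.1.2))
      (Primrec.not.to_comp.comp (hf.comp hmap2)) fun x => by
        rw [Bool.not_eq_true', ← hf' (Denumerable.ofNat Fml x.2, x.1.2), Bool.not_eq_true]
  have n1 : CeIn X fun x : (ℕ × List ℕ) × ℕ => Holds N (Denumerable.ofNat Fml x.2)
      (List.range x.1.1 ++ List.replicate (Encodable.encode (Denumerable.ofNat Fml x.2) + 1)
        ((List.range x.1.1).headD 0)) :=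
    CeIn.comp (P := fun p : Fml × List ℕ => Holds N p.1 p.2) hN.1 hmap
  have n2 : CeIn X fun x : (ℕ × List ℕ) × ℕ => ¬ Holds N (Denumerable.ofNat Fml x.2)
      (List.range x.1.1 ++ List.replicate (Encodable.encode (Denumerable.ofNat Fml x.2) + 1)
        ((List.range x.1.1).headD 0)) :=
    CeIn.comp (P := fun p : Fml × List ℕ => ¬ Holds N p.1 p.2) hN.2 hmap
  have hex := CeIn.exists ((n1.and (compIn_of_comp e2 X).1).or (n2.and (compIn_of_comp e1 X).1))
  have c1 : ComputablePred fun q : ℕ × List ℕ => q.1 = 0 :=
    compPred_of (f := fun q : ℕ × List ℕ => decide (q.1 = 0))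
      (Primrec.eq.decide.to_comp.comp Computable.fst (Computable.const 0)) fun q => by simp
  have c2 : ComputablePred fun q : ℕ × List ℕ => q.1 ≠ q.2.length :=
    compPred_of (f := fun q : ℕ × List ℕ => !decide (q.1 = q.2.length))
      (Primrec.not.to_comp.comp (Primrec.eq.decide.to_comp.comp Computable.fst
        (Computable.list_length.comp Computable.snd))) fun q => by simp
  have hall := ((compIn_of_comp c1 X).1.or (compIn_of_comp c2 X).1).or hex
  have heq : (fun q : ℕ × List ℕ => ¬ TE N (List.range q.1) B q.2) = fun q : ℕ × List ℕ =>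
      (q.1 = 0 ∨ q.1 ≠ q.2.length) ∨ ∃ n, (Holds N (Denumerable.ofNat Fml n)
      (List.range q.1 ++ List.replicate (Encodable.encode (Denumerable.ofNat Fml n) + 1)
        ((List.range q.1).headD 0)) ∧ ¬ Ev B (Denumerable.ofNat Fml n) q.2) ∨
      (¬ Holds N (Denumerable.ofNat Fml n)
      (List.range q.1 ++ List.replicate (Encodable.encode (Denumerable.ofNat Fml n) + 1)
        ((List.range q.1).headD 0)) ∧ Ev B (Denumerable.ofNat Fml n) q.2) := by
    funext q
    apply propext
    by_cases h0 : q.1 = 0
    · constructor
      · intro _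
        exact Or.inl (Or.inl h0)
      · intro _ h
        apply h.1
        rw [h0, List.range_zero]
    · have hne : List.range q.1 ≠ [] := by
        intro h
        have := congrArg List.length h
        rw [List.length_range, List.length_nil] at this
        exact h0 this
      by_cases h2 : q.1 = q.2.length
      · constructor
        · intro h
          refine Or.inr ?_
          by_contra hcon
          push Not at hcon
          apply h
          refine ⟨hne, by rw [List.length_range]; exact h2, fun φ => ?_⟩
          have h3 := hcon (Encodable.encode φ)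
          rw [Denumerable.ofNat_encode] at h3
          rw [ev_iff_holds_pad hne]
          exact ⟨h3.1, fun h4 => by
            by_contra h5
            exact h3.2 h5 h4⟩
        · rintro ((h | h) | ⟨n, h⟩) h3
          · exact h0 h
          · exact h h2
          · have h4 := h3.2.2 (Denumerable.ofNat Fml n)
            rw [ev_iff_holds_pad hne] at h4
            rcases h with h | h
            · exact h.2 (h4.1 h.1)
            · exact h.1 (h4.2 h.2)
      · constructor
        · intro _
          exact Or.inl (Or.inr h2)
        · intro _ h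
          apply h2
          rw [← h.2.1, List.length_range]
  rw [heq]
  exact hall

/-- The least name (least code) is limit computable: `g n s` is the least code at most `s` of
a tuple which is not thrown out by the approximation at stage `s`. -/
theorem exists_names {N B : Str} (h : LimDec fun q : ℕ × List ℕ =>
    ¬ TE N (List.range q.1) B q.2) : ∃ g : ℕ → ℕ → List ℕ, Computable₂ g ∧
      ∀ n, (∃ Z, TE N (List.range n) B Z) →
        ∃ Y, TE N (List.range n) B Y ∧ ∃ s₀, ∀ s, s₀ ≤ s → g n s = Y := by
  classical
  obtain ⟨g, hg, hg'⟩ := h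
  have hP : Computable₂ fun (p : ℕ × ℕ) (c : ℕ) => !g (p.1, Denumerable.ofNat (List ℕ) c) p.2 := by
    have h1 : Computable fun x : (ℕ × ℕ) × ℕ => g (x.1.1, Denumerable.ofNat (List ℕ) x.2) x.1.2 :=
      hg.comp (Computable.pair (Computable.fst.comp Computable.fst)
        ((Computable.ofNat (List ℕ)).comp Computable.snd)) (Computable.snd.comp Computable.fst)
    exact Primrec.not.to_comp.comp h1
  have hf := bfind_comp hP (n := fun p : ℕ × ℕ => p.2 + 1) (Computable.succ.comp Computable.snd)
  have hG : Computable fun p : ℕ × ℕ => Denumerable.ofNat (List ℕ)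
      (((List.range (p.2 + 1)).find? fun c =>
        !g (p.1, Denumerable.ofNat (List ℕ) c) p.2).getD 0) :=
    (Computable.ofNat (List ℕ)).comp (Computable.option_getD hf (Computable.const 0))
  refine ⟨fun n s => Denumerable.ofNat (List ℕ) (((List.range (s + 1)).find? fun c =>
    !g (n, Denumerable.ofNat (List ℕ) c) s).getD 0), hG, fun n hn => ?_⟩
  have hex : ∃ c, TE N (List.range n) B (Denumerable.ofNat (List ℕ) c) := by
    obtain ⟨Z, hZ⟩ := hn
    exact ⟨Encodable.encode Z, by rw [Denumerable.ofNat_encode]; exact hZ⟩
  choose t ht using fun c : ℕ => hg' (n, Denumerable.ofNat (List ℕ) c)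
  refine ⟨Denumerable.ofNat (List ℕ) (Nat.find hex), Nat.find_spec hex,
    max (Nat.find hex) ((Finset.range (Nat.find hex + 1)).sup t), fun s hs => ?_⟩
  have h1 : Nat.find hex ≤ s := le_trans (le_max_left _ _) hs
  have h2 : ∀ c ≤ Nat.find hex, t c ≤ s := fun c hc =>
    le_trans (Finset.le_sup (f := t) (Finset.mem_range.2 (by omega)))
      (le_trans (le_max_right _ _) hs)
  have h3 : ((List.range (s + 1)).find? fun c =>
      !g (n, Denumerable.ofNat (List ℕ) c) s) = some (Nat.find hex) := by
    rw [List.find?_range_eq_some]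
    refine ⟨?_, List.mem_range.2 (by omega), fun c hc => ?_⟩
    · have h4 := ht (Nat.find hex) s (h2 _ le_rfl)
      have h5 := Nat.find_spec hex
      cases hb : g (n, Denumerable.ofNat (List ℕ) (Nat.find hex)) s with
      | false => rfl
      | true => exact absurd h5 (h4.1 hb)
    · have h4 := ht c s (h2 _ hc.le)
      have h5 := Nat.find_min hex hc
      rw [h4.2 h5]
      rfl
  show Denumerable.ofNat (List ℕ) (((List.range (s + 1)).find? fun c =>
    !g (n, Denumerable.ofNat (List ℕ) c) s).getD 0) = _
  rw [h3]
  rfl

end Pool.Agent.H97.EM
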